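import Mathlib

/-!
# Fans, expressibility by binary submodular functions
-/

namespace Q220.Fans

open Finset

/-- A function on `{0,1}^k` is submodular. -/
def IsSubmodular {k : ℕ} (f : (Fin k → Bool) → ℝ) : Prop :=
  ∀ u v, f (u ⊓ v) + f (u ⊔ v) ≤ f u + f v

/-- `f` is expressible by binary submodular functions: for some number `j` of hidden variables
there are finitely many submodular functions `g_i` of two arguments, nonnegative weights `α_i`,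
pairs of variables `z_i` among the `n` given and the `j` hidden ones, and a constant `κ` such that
`f x` is the minimum over `y ∈ {0,1}^j` of `∑ α_i g_i (z_i) + κ`. -/
def Expressible {n : ℕ} (f : (Fin n → Bool) → ℝ) : Prop :=
  ∃ (j m : ℕ) (g : Fin m → (Fin 2 → Bool) → ℝ) (α : Fin m → ℝ) (z : Fin m → Fin 2 → Fin n ⊕ Fin j)
    (κ : ℝ), (∀ i, IsSubmodular (g i)) ∧ (∀ i, 0 ≤ α i) ∧
    ∀ x : Fin n → Bool, IsLeast
      (Set.range fun y : Fin j → Bool =>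
        ∑ i, α i * g i (fun s => Sum.elim x y (z i s)) + κ) (f x)

/-- `A` is an upper fan system: pairwise incomparable elements, any two different ones having the
join `⋁ A`. -/
def UpperSystem {k : ℕ} (A : Finset (Fin k → Bool)) : Prop :=
  ∀ a ∈ A, ∀ b ∈ A, a ≠ b → ¬ a ≤ b ∧ a ⊔ b = A.sup id

/-- `A` is a lower fan system. -/
def LowerSystem {k : ℕ} (A : Finset (Fin k → Bool)) : Prop :=
  ∀ a ∈ A, ∀ b ∈ A, a ≠ b → ¬ a ≤ b ∧ a ⊓ b = A.inf id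

open Classical in
/-- The upper fan of `A`. -/
noncomputable def upperFan {k : ℕ} (A : Finset (Fin k → Bool)) (x : Fin k → Bool) : ℝ :=
  if A.sup id ≤ x then -2 else if ∃ a ∈ A, a ≤ x then -1 else 0

open Classical in
/-- The lower fan of `A`. -/
noncomputable def lowerFan {k : ℕ} (A : Finset (Fin k → Bool)) (x : Fin k → Bool) : ℝ :=
  if x ≤ A.inf id then -2 else if ∃ a ∈ A, x ≤ a then -1 else 0

/-- `f` is a fan. -/
def IsFan {k : ℕ} (f : (Fin k → Bool) → ℝ) : Prop :=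
  (∃ A, UpperSystem A ∧ f = upperFan A) ∨ (∃ A, LowerSystem A ∧ f = lowerFan A)

/-- `f` is a nonnegative combination of fans plus a constant. -/
def InCone {k : ℕ} (f : (Fin k → Bool) → ℝ) : Prop :=
  ∃ (m : ℕ) (φ : Fin m → (Fin k → Bool) → ℝ) (c : Fin m → ℝ) (κ : ℝ),
    (∀ i, IsFan (φ i)) ∧ (∀ i, 0 ≤ c i) ∧ ∀ x, f x = ∑ i, c i * φ i x + κ

/-! ### The separating functional -/

/-- number of a point of the cube -/
def code (x : Fin 5 → Bool) : ℕ :=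
  (if x 0 then 1 else 0) + (if x 1 then 2 else 0) + (if x 2 then 4 else 0) +
    (if x 3 then 8 else 0) + (if x 4 then 16 else 0)

/-- the functional -/
def lam (x : Fin 5 → Bool) : ℤ :=
  ([2, -1, -1, 0, -1, 0, 0, 1, 1, -1, -1, 1, -1, 1, 1, -1, -1, 1, 1, 0, 1, 0, -1, -1, 1, 0, -1, -1, -1, -1, 1, 2] : List ℤ).getD (code x) 0

/-- sums over up-sets -/
def upT (x : Fin 5 → Bool) : ℤ :=
  ([0, 0, 0, 1, 0, 1, 2, 1, 0, 0, 1, 1, 1, 1, 3, 1, 0, 0, 0, 0, 0, 0, 1, 1, 0, 0, 1, 1, 1, 1, 3, 2] : List ℤ).getD (code x) 0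

/-- sums over down-sets -/
def dnT (x : Fin 5 → Bool) : ℤ :=
  ([2, 1, 1, 0, 1, 0, 0, 0, 3, 1, 1, 0, 1, 0, 0, 0, 1, 1, 1, 1, 1, 1, 0, 0, 3, 2, 1, 0, 1, 0, 0, 0] : List ℤ).getD (code x) 0

/-- prices for upper fans -/
def pU (x : Fin 5 → Bool) (i : Fin 5) : ℤ :=
  (([[0, 0, 0, 0, 0],
    [0, 0, 0, 0, 0],
    [0, 0, 0, 0, 0],
    [1, 1, 0, 0, 0],
    [0, 0, 0, 0, 0],
    [1, 0, 1, 0, 0],
    [0, 2, 2, 0, 0],
    [0, 1, 1, 0, 0],
    [0, 0, 0, 0, 0],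
    [0, 0, 0, 0, 0],
    [0, 1, 0, 1, 0],
    [0, 1, 0, 1, 0],
    [0, 0, 1, 1, 0],
    [0, 0, 1, 1, 0],
    [0, 2, 2, 1, 0],
    [0, 0, 1, 1, 0],
    [0, 0, 0, 0, 0],
    [0, 0, 0, 0, 0],
    [0, 0, 0, 0, 0],
    [0, 0, 0, 0, 0],
    [0, 0, 0, 0, 0],
    [0, 0, 0, 0, 0],
    [0, 1, 1, 0, 0],
    [0, 1, 1, 0, 0],
    [0, 0, 0, 0, 0],
    [0, 0, 0, 0, 0],
    [0, 1, 0, 1, 0],
    [0, 1, 0, 1, 0],
    [0, 0, 1, 1, 0],
    [0, 0, 1, 1, 0],
    [0, 2, 2, 2, 0],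
    [0, 1, 1, 1, 1]] : List (List ℤ)).getD (code x) []).getD i 0

/-- prices for lower fans -/
def pD (x : Fin 5 → Bool) (i : Fin 5) : ℤ :=
  (([[1, 1, 1, 0, 1],
    [0, 1, 1, 0, 0],
    [1, 0, 1, 0, 0],
    [0, 0, 0, 0, 0],
    [1, 1, 0, 0, 0],
    [0, 0, 0, 0, 0],
    [0, 0, 0, 0, 0],
    [0, 0, 0, 0, 0],
    [2, 2, 2, 0, 0],
    [0, 1, 1, 0, 0],
    [1, 0, 1, 0, 0],
    [0, 0, 0, 0, 0],
    [1, 1, 0, 0, 0],
    [0, 0, 0, 0, 0],
    [0, 0, 0, 0, 0],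
    [0, 0, 0, 0, 0],
    [0, 0, 1, 1, 0],
    [0, 0, 1, 1, 0],
    [0, 0, 1, 1, 0],
    [0, 0, 1, 1, 0],
    [0, 1, 0, 1, 0],
    [0, 1, 0, 1, 0],
    [0, 0, 0, 0, 0],
    [0, 0, 0, 0, 0],
    [1, 2, 2, 0, 0],
    [0, 2, 2, 0, 0],
    [1, 0, 1, 0, 0],
    [0, 0, 0, 0, 0],
    [1, 1, 0, 0, 0],
    [0, 0, 0, 0, 0],
    [0, 0, 0, 0, 0],
    [0, 0, 0, 0, 0]] : List (List ℤ)).getD (code x) []).getD i 0

/-- the order on the cube, computed -/
def leB (a x : Fin 5 → Bool) : Bool :=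
  (!a 0 || x 0) && (!a 1 || x 1) && (!a 2 || x 2) && (!a 3 || x 3) && (!a 4 || x 4)

theorem leB_iff (a x : Fin 5 → Bool) : leB a x = true ↔ a ≤ x := by
  have h : ∀ p q : Bool, ((!p || q) = true ↔ p ≤ q) := by decide
  unfold leB
  rw [Bool.and_eq_true, Bool.and_eq_true, Bool.and_eq_true, Bool.and_eq_true, h, h, h, h, h]
  constructor
  · rintro ⟨⟨⟨⟨h0, h1⟩, h2⟩, h3⟩, h4⟩ i
    fin_cases i <;> assumption
  · intro h
    exact ⟨⟨⟨⟨h 0, h 1⟩, h 2⟩, h 3⟩, h 4⟩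

theorem sum_lam : ∑ x, lam x = 0 := by decide +kernel

theorem upT_eq : ∀ a : Fin 5 → Bool, ∑ x, (if leB a x = true then lam x else 0) = upT a := by
  decide +kernel

theorem dnT_eq : ∀ a : Fin 5 → Bool, ∑ x, (if leB x a = true then lam x else 0) = dnT a := by
  decide +kernel

theorem upT_nonneg : ∀ a : Fin 5 → Bool, 0 ≤ upT a := by decide +kernel

theorem pU_nonneg : ∀ (a : Fin 5 → Bool) i, 0 ≤ pU a i := by decide +kernel

theorem pD_nonneg : ∀ (a : Fin 5 → Bool) i, 0 ≤ pD a i := by decide +kernel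

theorem upT_price : ∀ S a : Fin 5 → Bool, leB a S = true →
    0 ≤ upT a - upT S + ∑ i, (if S i = true ∧ a i = false then pU S i else 0) := by
  decide +kernel

theorem dnT_price : ∀ T a : Fin 5 → Bool, leB T a = true →
    0 ≤ dnT a - dnT T + ∑ i, (if T i = false ∧ a i = true then pD T i else 0) := by
  decide +kernel

theorem pU_total : ∀ S : Fin 5 → Bool, ∑ i, (if S i = true then pU S i else 0) ≤ 2 * upT S := by
  decide +kernel

theorem pD_total : ∀ T : Fin 5 → Bool, ∑ i, (if T i = false then pD T i else 0) ≤ 2 * dnT T := by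
  decide +kernel

end Q220.Fans
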