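import Pool.Agent.Q220.Fans.Basic

namespace Q220.Fans

open Finset

variable {k : ℕ}

/-- extension of a point of the 5-cube by zeros -/
def ext (k : ℕ) (x : Fin 5 → Bool) : Fin k → Bool := fun i => if h : (i : ℕ) < 5 then x ⟨i, h⟩ else false

/-- restriction to the first five coordinates -/
def res (hk : 5 ≤ k) (a : Fin k → Bool) : Fin 5 → Bool := fun i => a (Fin.castLE hk i)

theorem eq_false_of_le {b : Bool} (h : b ≤ false) : b = false := by
  have : ∀ b : Bool, b ≤ false → b = false := by decide
  exact this b h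

theorem res_ext (hk : 5 ≤ k) (x : Fin 5 → Bool) : res hk (ext k x) = x := by
  funext i
  simp [res, ext]

theorem ext_le_iff (hk : 5 ≤ k) (x : Fin 5 → Bool) (a : Fin k → Bool) :
    ext k x ≤ a ↔ x ≤ res hk a := by
  constructor
  · intro h i
    have := h (Fin.castLE hk i)
    simpa [ext, res] using this
  · intro h i
    by_cases hi : (i : ℕ) < 5
    · have := h ⟨i, hi⟩
      simpa [ext, res, hi] using this
    · simp [ext, hi]

theorem le_ext_iff (hk : 5 ≤ k) (x : Fin 5 → Bool) (a : Fin k → Bool) :
    a ≤ ext k x ↔ res hk a ≤ x ∧ ∀ i : Fin k, 5 ≤ (i : ℕ) → a i = false := by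
  constructor
  · intro h
    refine ⟨fun i => ?_, fun i hi => ?_⟩
    · have := h (Fin.castLE hk i)
      simpa [ext, res] using this
    · have := h i
      simp only [ext] at this
      rw [dif_neg (by omega)] at this
      exact eq_false_of_le this
  · rintro ⟨h1, h2⟩ i
    by_cases hi : (i : ℕ) < 5
    · have := h1 ⟨i, hi⟩
      simpa [ext, res, hi] using this
    · rw [h2 i (by omega)]
      exact Bool.false_le _

open Classical in
/-- the sum of the functional over the points above `a` -/
noncomputable def U (k : ℕ) (a : Fin k → Bool) : ℤ := ∑ x, lam x * (if a ≤ ext k x then 1 else 0)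

open Classical in
/-- the sum of the functional over the points below `a` -/
noncomputable def Dn (k : ℕ) (a : Fin k → Bool) : ℤ := ∑ x, lam x * (if ext k x ≤ a then 1 else 0)

theorem U_of_supp (hk : 5 ≤ k) (a : Fin k → Bool) (ha : ∀ i : Fin k, 5 ≤ (i : ℕ) → a i = false) :
    U k a = upT (res hk a) := by
  classical
  rw [← upT_eq]
  unfold U
  apply Finset.sum_congr rfl
  intro x _
  by_cases h : res hk a ≤ x
  · rw [if_pos ((le_ext_iff hk x a).mpr ⟨h, ha⟩), if_pos ((leB_iff _ _).mpr h), mul_one]
  · rw [if_neg (fun h' => h ((le_ext_iff hk x a).mp h').1),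
      if_neg (fun h' => h ((leB_iff _ _).mp h')), mul_zero]

theorem U_of_not (a : Fin k → Bool) (hk : 5 ≤ k)
    (ha : ¬ ∀ i : Fin k, 5 ≤ (i : ℕ) → a i = false) : U k a = 0 := by
  classical
  unfold U
  apply Finset.sum_eq_zero
  intro x _
  rw [if_neg (fun h' => ha ((le_ext_iff hk x a).mp h').2), mul_zero]

theorem U_nonneg (hk : 5 ≤ k) (a : Fin k → Bool) : 0 ≤ U k a := by
  by_cases ha : ∀ i : Fin k, 5 ≤ (i : ℕ) → a i = false
  · rw [U_of_supp hk a ha]; exact upT_nonneg _
  · rw [U_of_not a hk ha]

theorem Dn_eq (hk : 5 ≤ k) (a : Fin k → Bool) : Dn k a = dnT (res hk a) := by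
  classical
  rw [← dnT_eq]
  unfold Dn
  apply Finset.sum_congr rfl
  intro x _
  by_cases h : x ≤ res hk a
  · rw [if_pos ((ext_le_iff hk x a).mpr h), if_pos ((leB_iff _ _).mpr h), mul_one]
  · rw [if_neg (fun h' => h ((ext_le_iff hk x a).mp h')),
      if_neg (fun h' => h ((leB_iff _ _).mp h')), mul_zero]

/-- the functional -/
noncomputable def L (k : ℕ) (f : (Fin k → Bool) → ℝ) : ℝ := ∑ x, (lam x : ℝ) * f (ext k x)

open Classical in
theorem upperFan_eq {A : Finset (Fin k → Bool)} (hA : UpperSystem A) (x : Fin k → Bool) :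
    upperFan A x = ((-(2 * (if A.sup id ≤ x then 1 else 0) +
      ∑ a ∈ A, ((if a ≤ x then 1 else 0) - (if A.sup id ≤ x then 1 else 0))) : ℤ) : ℝ) := by
  unfold upperFan
  by_cases hS : A.sup id ≤ x
  · have : ∀ a ∈ A, ((if a ≤ x then (1 : ℤ) else 0) - 1) = 0 := by
      intro a ha
      have h1 : a ≤ x := (Finset.le_sup (f := id) ha).trans hS
      rw [if_pos h1]; rfl
    simp only [if_pos hS]
    rw [Finset.sum_eq_zero this]
    norm_num
  · simp only [if_neg hS, sub_zero, mul_zero, zero_add]
    by_cases hE : ∃ a ∈ A, a ≤ x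
    · rw [if_pos hE]
      obtain ⟨a, ha, hax⟩ := hE
      rw [Finset.sum_eq_single a]
      · rw [if_pos hax]; norm_num
      · intro b hb hba
        rw [if_neg]
        intro hbx
        apply hS
        rw [← (hA b hb a ha hba).2]
        exact sup_le hbx hax
      · intro h; exact absurd ha h
    · rw [if_neg hE, Finset.sum_eq_zero]
      · norm_num
      · intro a ha
        rw [if_neg (fun h => hE ⟨a, ha, h⟩)]

open Classical in
theorem lowerFan_eq {A : Finset (Fin k → Bool)} (hA : LowerSystem A) (x : Fin k → Bool) :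
    lowerFan A x = ((-(2 * (if x ≤ A.inf id then 1 else 0) +
      ∑ a ∈ A, ((if x ≤ a then 1 else 0) - (if x ≤ A.inf id then 1 else 0))) : ℤ) : ℝ) := by
  unfold lowerFan
  by_cases hS : x ≤ A.inf id
  · have : ∀ a ∈ A, ((if x ≤ a then (1 : ℤ) else 0) - 1) = 0 := by
      intro a ha
      have h1 : x ≤ a := hS.trans (Finset.inf_le (f := id) ha)
      rw [if_pos h1]; rfl
    simp only [if_pos hS]
    rw [Finset.sum_eq_zero this]
    norm_num
  · simp only [if_neg hS, sub_zero, mul_zero, zero_add]
    by_cases hE : ∃ a ∈ A, x ≤ a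
    · rw [if_pos hE]
      obtain ⟨a, ha, hax⟩ := hE
      rw [Finset.sum_eq_single a]
      · rw [if_pos hax]; norm_num
      · intro b hb hba
        rw [if_neg]
        intro hbx
        apply hS
        rw [← (hA b hb a ha hba).2]
        exact le_inf hbx hax
      · intro h; exact absurd ha h
    · rw [if_neg hE, Finset.sum_eq_zero]
      · norm_num
      · intro a ha
        rw [if_neg (fun h => hE ⟨a, ha, h⟩)]

theorem upper_ineq (hk : 5 ≤ k) {A : Finset (Fin k → Bool)} (hA : UpperSystem A) :
    0 ≤ 2 * U k (A.sup id) + ∑ a ∈ A, (U k a - U k (A.sup id)) := by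
  classical
  set S := A.sup id with hS
  by_cases hs : ∀ i : Fin k, 5 ≤ (i : ℕ) → S i = false
  · have hle : ∀ a ∈ A, a ≤ S := fun a ha => Finset.le_sup (f := id) ha
    have hsa : ∀ a ∈ A, ∀ i : Fin k, 5 ≤ (i : ℕ) → a i = false := by
      intro a ha i hi
      have := hle a ha i
      rw [hs i hi] at this
      exact eq_false_of_le this
    have h1 : ∀ a ∈ A, -(∑ i, (if res hk S i = true ∧ res hk a i = false then
        pU (res hk S) i else 0)) ≤ U k a - U k S := by
      intro a ha
      rw [U_of_supp hk a (hsa a ha), U_of_supp hk S hs]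
      have := upT_price (res hk S) (res hk a) ((leB_iff _ _).mpr (fun i => hle a ha _))
      linarith
    have h2 := Finset.sum_le_sum h1
    rw [Finset.sum_neg_distrib, Finset.sum_comm] at h2
    have h3 : ∑ i, ∑ a ∈ A, (if res hk S i = true ∧ res hk a i = false then
        pU (res hk S) i else 0) ≤ ∑ i, (if res hk S i = true then pU (res hk S) i else 0) := by
      apply Finset.sum_le_sum
      intro i _
      by_cases hi : res hk S i = true
      · rw [if_pos hi]
        have hcard : (A.filter (fun a => res hk a i = false)).card ≤ 1 := by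
          rw [Finset.card_le_one]
          intro a ha b hb
          rw [Finset.mem_filter] at ha hb
          by_contra hab
          have h4 := (hA a ha.1 b hb.1 hab).2
          have h5 : res hk (a ⊔ b) i = false := by
            change (a ⊔ b) _ = false
            rw [Pi.sup_apply]
            have e1 : a (Fin.castLE hk i) = false := ha.2
            have e2 : b (Fin.castLE hk i) = false := hb.2
            rw [e1, e2]; rfl
          rw [h4, ← hS, hi] at h5
          exact absurd h5 (by simp)
        calc ∑ a ∈ A, (if res hk S i = true ∧ res hk a i = false then pU (res hk S) i else 0)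
            = ∑ a ∈ A, (if res hk a i = false then pU (res hk S) i else 0) := by
              apply Finset.sum_congr rfl
              intro a _
              simp [hi]
          _ = (A.filter (fun a => res hk a i = false)).card * pU (res hk S) i := by
              rw [← Finset.sum_filter, Finset.sum_const, nsmul_eq_mul]
          _ ≤ 1 * pU (res hk S) i := by
              apply mul_le_mul_of_nonneg_right _ (pU_nonneg _ _)
              exact_mod_cast hcard
          _ = pU (res hk S) i := one_mul _
      · rw [if_neg hi]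
        apply le_of_eq
        apply Finset.sum_eq_zero
        intro a _
        rw [if_neg (fun h => hi h.1)]
    have h4 := pU_total (res hk S)
    rw [← U_of_supp hk S hs] at h4
    linarith
  · rw [U_of_not S hk hs]
    have : 0 ≤ ∑ a ∈ A, (U k a - 0) := Finset.sum_nonneg (fun a _ => by
      have := U_nonneg hk a; linarith)
    linarith

theorem lower_ineq (hk : 5 ≤ k) {A : Finset (Fin k → Bool)} (hA : LowerSystem A) :
    0 ≤ 2 * Dn k (A.inf id) + ∑ a ∈ A, (Dn k a - Dn k (A.inf id)) := by
  classical
  set T := A.inf id with hT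
  have hle : ∀ a ∈ A, T ≤ a := fun a ha => Finset.inf_le (f := id) ha
  have h1 : ∀ a ∈ A, -(∑ i, (if res hk T i = false ∧ res hk a i = true then
      pD (res hk T) i else 0)) ≤ Dn k a - Dn k T := by
    intro a ha
    rw [Dn_eq hk a, Dn_eq hk T]
    have := dnT_price (res hk T) (res hk a) ((leB_iff _ _).mpr (fun i => hle a ha _))
    linarith
  have h2 := Finset.sum_le_sum h1
  rw [Finset.sum_neg_distrib, Finset.sum_comm] at h2
  have h3 : ∑ i, ∑ a ∈ A, (if res hk T i = false ∧ res hk a i = true then
      pD (res hk T) i else 0) ≤ ∑ i, (if res hk T i = false then pD (res hk T) i else 0) := by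
    apply Finset.sum_le_sum
    intro i _
    by_cases hi : res hk T i = false
    · rw [if_pos hi]
      have hcard : (A.filter (fun a => res hk a i = true)).card ≤ 1 := by
        rw [Finset.card_le_one]
        intro a ha b hb
        rw [Finset.mem_filter] at ha hb
        by_contra hab
        have h4 := (hA a ha.1 b hb.1 hab).2
        have h5 : res hk (a ⊓ b) i = true := by
          change (a ⊓ b) _ = true
          rw [Pi.inf_apply]
          have e1 : a (Fin.castLE hk i) = true := ha.2
          have e2 : b (Fin.castLE hk i) = true := hb.2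
          rw [e1, e2]; rfl
        rw [h4, ← hT, hi] at h5
        exact absurd h5 (by simp)
      calc ∑ a ∈ A, (if res hk T i = false ∧ res hk a i = true then pD (res hk T) i else 0)
          = ∑ a ∈ A, (if res hk a i = true then pD (res hk T) i else 0) := by
            apply Finset.sum_congr rfl
            intro a _
            simp [hi]
        _ = (A.filter (fun a => res hk a i = true)).card * pD (res hk T) i := by
            rw [← Finset.sum_filter, Finset.sum_const, nsmul_eq_mul]
        _ ≤ 1 * pD (res hk T) i := by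
            apply mul_le_mul_of_nonneg_right _ (pD_nonneg _ _)
            exact_mod_cast hcard
        _ = pD (res hk T) i := one_mul _
    · rw [if_neg hi]
      apply le_of_eq
      apply Finset.sum_eq_zero
      intro a _
      rw [if_neg (fun h => hi h.1)]
  have h4 := pD_total (res hk T)
  rw [← Dn_eq hk T] at h4
  linarith

theorem L_aux (A : Finset (Fin k → Bool)) (J : (Fin k → Bool) → (Fin 5 → Bool) → ℤ)
    (S : Fin k → Bool) :
    ∑ x, lam x * (-(2 * J S x + ∑ a ∈ A, (J a x - J S x))) =
      -(2 * (∑ x, lam x * J S x) + ∑ a ∈ A, ((∑ x, lam x * J a x) - ∑ x, lam x * J S x)) := by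
  simp only [← Finset.sum_sub_distrib]
  rw [Finset.sum_comm, Finset.mul_sum, ← Finset.sum_add_distrib, ← Finset.sum_neg_distrib]
  apply Finset.sum_congr rfl
  intro x _
  have : ∑ a ∈ A, (lam x * J a x - lam x * J S x) = lam x * ∑ a ∈ A, (J a x - J S x) := by
    rw [Finset.mul_sum]
    exact Finset.sum_congr rfl (fun a _ => by ring)
  rw [this]; ring

theorem L_upper (hk : 5 ≤ k) {A : Finset (Fin k → Bool)} (hA : UpperSystem A) :
    L k (upperFan A) ≤ 0 := by
  classical
  have h := L_aux A (fun a x => if a ≤ ext k x then 1 else 0) (A.sup id)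
  have h2 : L k (upperFan A) =
      ((-(2 * U k (A.sup id) + ∑ a ∈ A, (U k a - U k (A.sup id))) : ℤ) : ℝ) := by
    unfold U
    rw [← h]
    unfold L
    simp only [upperFan_eq hA]
    push_cast
    rfl
  rw [h2]
  have := upper_ineq hk hA
  exact_mod_cast (by linarith : (-(2 * U k (A.sup id) + ∑ a ∈ A, (U k a - U k (A.sup id))) : ℤ) ≤ 0)

theorem L_lower (hk : 5 ≤ k) {A : Finset (Fin k → Bool)} (hA : LowerSystem A) :
    L k (lowerFan A) ≤ 0 := by
  classical
  have h := L_aux A (fun a x => if ext k x ≤ a then 1 else 0) (A.inf id)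
  have h2 : L k (lowerFan A) =
      ((-(2 * Dn k (A.inf id) + ∑ a ∈ A, (Dn k a - Dn k (A.inf id))) : ℤ) : ℝ) := by
    unfold Dn
    rw [← h]
    unfold L
    simp only [lowerFan_eq hA]
    push_cast
    rfl
  rw [h2]
  have := lower_ineq hk hA
  exact_mod_cast
    (by linarith : (-(2 * Dn k (A.inf id) + ∑ a ∈ A, (Dn k a - Dn k (A.inf id))) : ℤ) ≤ 0)

/-- A nonnegative combination of fans plus a constant has a nonpositive value of `L`. -/
theorem L_cone (hk : 5 ≤ k) {f : (Fin k → Bool) → ℝ} (hf : InCone f) : L k f ≤ 0 := by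
  obtain ⟨m, φ, c, κ, hφ, hc, hfx⟩ := hf
  have h1 : L k f = ∑ i, c i * L k (φ i) := by
    unfold L
    simp only [hfx, mul_add, Finset.sum_add_distrib, Finset.mul_sum]
    rw [← Finset.sum_mul]
    have h0 : (∑ x, (lam x : ℝ)) = 0 := by
      have := sum_lam
      exact_mod_cast this
    rw [h0, zero_mul, add_zero, Finset.sum_comm]
    apply Finset.sum_congr rfl
    intro i _
    apply Finset.sum_congr rfl
    intro x _
    ring
  rw [h1]
  apply Finset.sum_nonpos
  intro i _
  have h2 : L k (φ i) ≤ 0 := by
    rcases hφ i with ⟨A, hA, h⟩ | ⟨A, hA, h⟩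
    · rw [h]; exact L_upper hk hA
    · rw [h]; exact L_lower hk hA
  exact mul_nonpos_of_nonneg_of_nonpos (hc i) h2

/-- weights -/
def wt (x : Fin 5 → Bool) : ℤ :=
  (if x 0 then 1 else 0) + (if x 1 then 1 else 0) + (if x 2 then 1 else 0) +
    (if x 3 then 1 else 0) + (if x 4 then 2 else 0)

/-- the integer-valued function on the 5-cube -/
def G5 (x : Fin 5 → Bool) : ℤ := min 0 (3 - wt x)

theorem G5_submod : ∀ u v : Fin 5 → Bool, G5 (u ⊓ v) + G5 (u ⊔ v) ≤ G5 u + G5 v := by
  decide +kernel

theorem G5_L : ∑ x, lam x * G5 x = 2 := by decide +kernel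

/-- `min(0, 3 - (x_1 + x_2 + x_3 + x_4 + 2 x_5))` as a function on the `k`-cube -/
def target (hk : 5 ≤ k) (x : Fin k → Bool) : ℝ := ((G5 (res hk x) : ℤ) : ℝ)

theorem target_submod (hk : 5 ≤ k) : IsSubmodular (target hk) := by
  intro u v
  have := G5_submod (res hk u) (res hk v)
  unfold target
  exact_mod_cast this

theorem target_not_cone (hk : 5 ≤ k) : ¬ InCone (target hk) := by
  intro h
  have h1 := L_cone hk h
  have h2 : L k (target hk) = 2 := by
    unfold L target
    simp only [res_ext]
    have := G5_L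
    exact_mod_cast this
  linarith

/-- coefficients of the products -/
def qc : Fin 6 → ℤ := ![1, 1, 1, 1, 2, 0]

/-- coefficients of the hidden variable -/
def lc : Fin 6 → ℤ := ![0, 0, 0, 0, 0, 3]

/-- indices of the visible variables -/
def ix : Fin 6 → Fin 5 := ![0, 1, 2, 3, 4, 0]

/-- the binary functions, integer valued -/
def gZ (i : Fin 6) (b : Fin 2 → Bool) : ℤ :=
  -(qc i * (if b 0 && b 1 then 1 else 0)) + lc i * (if b 1 then 1 else 0)

theorem gZ_submod : ∀ (i : Fin 6) (u v : Fin 2 → Bool),
    gZ i (u ⊓ v) + gZ i (u ⊔ v) ≤ gZ i u + gZ i v := by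
  decide +kernel

theorem gZ_sum : ∀ (x : Fin 5 → Bool) (y : Bool),
    ∑ i, gZ i ![x (ix i), y] = if y then 3 - wt x else 0 := by
  decide +kernel

theorem target_expressible (hk : 5 ≤ k) : Expressible (target hk) := by
  refine ⟨1, 6, fun i b => ((gZ i b : ℤ) : ℝ), fun _ => 1,
    fun i => ![Sum.inl (Fin.castLE hk (ix i)), Sum.inr 0], 0, ?_, ?_, ?_⟩
  · intro i u v
    have := gZ_submod i u v
    change ((gZ i (u ⊓ v) : ℤ) : ℝ) + ((gZ i (u ⊔ v) : ℤ) : ℝ) ≤
      ((gZ i u : ℤ) : ℝ) + ((gZ i v : ℤ) : ℝ)
    exact_mod_cast this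
  · intro i; norm_num
  · intro x
    have hval : ∀ y : Fin 1 → Bool, ∑ i : Fin 6, (1 : ℝ) * ((gZ i (fun s => Sum.elim x y
        ((![Sum.inl (Fin.castLE hk (ix i)), Sum.inr 0] : Fin 2 → Fin k ⊕ Fin 1) s)) : ℤ) : ℝ) + 0 =
        (((if y 0 then 3 - wt (res hk x) else 0) : ℤ) : ℝ) := by
      intro y
      rw [← gZ_sum]
      push_cast
      rw [add_zero]
      apply Finset.sum_congr rfl
      intro i _
      rw [one_mul]
      congr 2
      funext s
      fin_cases s <;> rfl
    constructor
    · by_cases h : 3 - wt (res hk x) ≤ 0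
      · refine ⟨fun _ => true, ?_⟩
        dsimp only
        rw [hval]
        unfold target G5
        rw [min_eq_right h]
        simp
      · refine ⟨fun _ => false, ?_⟩
        dsimp only
        rw [hval]
        unfold target G5
        rw [min_eq_left (not_le.mp h).le]
        simp
    · rintro _ ⟨y, rfl⟩
      dsimp only
      rw [hval]
      unfold target G5
      cases hy : y 0
      · simp only [Bool.false_eq_true, if_false]
        exact_mod_cast min_le_left _ _
      · simp only [if_true]
        exact_mod_cast min_le_right _ _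

end Q220.Fans
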